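import Pool.Agent.TH201.Ph.Main

set_option autoImplicit false

/-!
# Group-based ideals of the three-leaf claw need generators of exponential degree
-/

namespace Pool.Agent.Results.MP_ea11fc_ag.EveryLargeGroup

open MvPolynomial

/-- The flows on the claw tree `K_{1,3}`, all edges oriented towards the node: the triples of
elements of `G` with sum zero. -/
abbrev Flow (G : Type) [AddCommGroup G] : Type := {f : Fin 3 → G // f 0 + f 1 + f 2 = 0}

/-- The monomial map `x_f ↦ t^{P_f}`, where `P_f` is the sum of the basis vectors `b_(e, f e)` over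
the three edges `e`. -/
noncomputable def param (G : Type) [AddCommGroup G] :
    MvPolynomial (Flow G) ℂ →ₐ[ℂ] MvPolynomial (Fin 3 × G) ℂ :=
  aeval fun f => ∏ e : Fin 3, X (e, f.1 e)

/-- The toric ideal `I(G, K_{1,3})`. -/
noncomputable def toricIdeal (G : Type) [AddCommGroup G] : Ideal (MvPolynomial (Flow G) ℂ) :=
  RingHom.ker (param G)

/-- The irrelevant ideal, generated by the variables. -/
noncomputable def irrelevant (G : Type) [AddCommGroup G] : Ideal (MvPolynomial (Flow G) ℂ) :=
  Ideal.span (Set.range X)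

/-- flows are given by their first two entries -/
def eqv (G : Type) [AddCommGroup G] : Flow G ≃ G × G where
  toFun f := (f.1 0, f.1 1)
  invFun r := ⟨![r.1, r.2, - r.1 - r.2], by simp⟩
  left_inv := by
    rintro ⟨f, h⟩
    apply Subtype.ext
    funext i
    have h2 : - f 0 - f 1 = f 2 := by
      rw [← sub_eq_zero, ← neg_eq_zero, ← h]; abel
    fin_cases i
    · rfl
    · rfl
    · exact h2
  right_inv := by
    rintro ⟨a, b⟩
    rfl

theorem co_eqv {G : Type} [AddCommGroup G] (f : Flow G) (c : Fin 3) :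
    H929R3.co c (eqv G f) = f.1 c := by
  obtain ⟨f, h⟩ := f
  have h2 : - f 0 - f 1 = f 2 := by
    rw [← sub_eq_zero, ← neg_eq_zero, ← h]; abel
  fin_cases c
  · rfl
  · rfl
  · exact h2

theorem param_eq (G : Type) [AddCommGroup G] :
    param G = H929R3.mono (fun f => H929R3.E0 (eqv G f)) := by
  unfold param H929R3.mono
  congr 1
  funext f
  show (∏ e : Fin 3, X (e, f.1 e) : MvPolynomial (Fin 3 × G) ℂ) =
    monomial (H929R3.E0 (eqv G f)) 1
  rw [H929R3.E0, monomial_sum_one]
  refine Finset.prod_congr rfl fun c _ => ?_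
  rw [co_eqv]
  rfl

theorem lower {G : Type} [AddCommGroup G] [Fintype G] {K : ℕ} (hK : 1 ≤ K)
    (hG : (5 * K + 2) ^ 2 * (6 * K + 2) < Fintype.card G) (S : Set (MvPolynomial (Flow G) ℂ))
    (hS : S ⊆ toricIdeal G) (hd : ∀ q ∈ S, q.totalDegree + 5 < 7 * 2 ^ K) (N : ℕ) :
    ¬ (irrelevant G ^ N * toricIdeal G ≤ Ideal.span S) := by
  intro hle
  obtain ⟨T0, T1, g0, hdisj, hne, hd0, hlin, hfib⟩ := TH201.Ph.core hK hG (eqv G)
  refine H929R3.not_mem_span (fun f => H929R3.E0 (eqv G f)) T0 T1 g0 N hdisj hne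
    (fun M hM => hfib N M hM) S ?_ (hle (Ideal.mul_mem_mul
      (Ideal.pow_mem_pow (Ideal.subset_span (Set.mem_range_self g0)) N) ?_))
  · intro q hq
    have h1 : q ∈ toricIdeal G := hS hq
    rw [toricIdeal, RingHom.mem_ker, param_eq] at h1
    exact ⟨h1, by have := hd q hq; omega⟩
  · rw [toricIdeal, RingHom.mem_ker, param_eq]
    exact H929R3.binomial_mem _ T0 T1 hlin

/-- For every finite abelian group `G` and every `K ≥ 1` with `(5K+2)²(6K+2) < |G|`, no set of
elements of degree less than `7·2^K - 5` generates `I(G, K_{1,3})`, not even up to saturation with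
respect to the irrelevant ideal. In particular, if `|G| > 931040` then every generating set of
`I(G, K_{1,3})` contains an element of degree greater than `|G|`. -/
theorem result (G : Type) [AddCommGroup G] [Fintype G] :
    (∀ K : ℕ, 1 ≤ K → (5 * K + 2) ^ 2 * (6 * K + 2) < Fintype.card G →
      ∀ S : Set (MvPolynomial (Flow G) ℂ), S ⊆ toricIdeal G →
        (∀ q ∈ S, q.totalDegree + 5 < 7 * 2 ^ K) →
        ∀ N : ℕ, ¬ (irrelevant G ^ N * toricIdeal G ≤ Ideal.span S)) ∧
    (931040 < Fintype.card G →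
      ∀ S : Set (MvPolynomial (Flow G) ℂ), Ideal.span S = toricIdeal G →
        ∃ q ∈ S, Fintype.card G < q.totalDegree) := by
  refine ⟨fun K hK hG S hS hd N => lower hK hG S hS hd N, fun hG S hS => ?_⟩
  by_contra hcon
  push Not at hcon
  obtain ⟨K, hK, h1, h2⟩ := TH201.Ph.exists_K _ hG
  refine lower hK h1 S (fun q hq => ?_) (fun q hq => ?_) 0 ?_
  · rw [← hS]
    exact Ideal.subset_span hq
  · have := hcon q hq
    omega
  · rw [hS, pow_zero, Ideal.one_eq_top, Ideal.top_mul]

end Pool.Agent.Results.MP_ea11fc_ag.EveryLargeGroup
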